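import Pool.Agent.Y19.TP.Stm

/-!
# Field of definition of bounded degree
-/

set_option autoImplicit false

namespace Pool.Agent.Y314.TP

open Polynomial Pool.Agent.Y19.TP

/-- adjunction of one root -/
theorem adj_one {F E : Type} [Field F] [Field E] [Algebra F E] (L : IntermediateField F E)
    (hL : FiniteDimensional F L) (m : ℕ) (x : E) (p : E[X]) (hp : p ≠ 0) (hm : p.natDegree ≤ m)
    (hc : ∀ i, p.coeff i ∈ L) (hx : p.eval x = 0) :
    ∃ L' : IntermediateField F E, L ≤ L' ∧ x ∈ L' ∧ FiniteDimensional F L' ∧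
      Module.finrank F L' ≤ Module.finrank F L * m := by
  obtain ⟨q, hq⟩ := (Polynomial.mem_lifts p).1 ((Polynomial.lifts_iff_coeff_lifts
    (f := algebraMap L E) p).2 fun i => ⟨⟨p.coeff i, hc i⟩, rfl⟩)
  have hq0 : q ≠ 0 := by
    rintro rfl
    exact hp (by rw [← hq, Polynomial.map_zero])
  have hqx : aeval x q = 0 := by
    rw [← hq, Polynomial.eval_map] at hx
    exact hx
  have hqd : q.natDegree = p.natDegree := by rw [← hq, Polynomial.natDegree_map]
  have hint : IsIntegral L x := (show IsAlgebraic L x from ⟨q, hq0, hqx⟩).isIntegral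
  have hfin : Module.finrank L (IntermediateField.adjoin L {x}) ≤ m := by
    rw [IntermediateField.adjoin.finrank hint]
    exact (natDegree_le_of_dvd (minpoly.dvd L x hqx) hq0).trans (hqd.le.trans hm)
  haveI h1 : FiniteDimensional L (IntermediateField.adjoin L {x}) :=
    IntermediateField.adjoin.finiteDimensional hint
  haveI h2 : FiniteDimensional F (IntermediateField.adjoin L {x}) := FiniteDimensional.trans F L _
  have h3 := Module.finrank_mul_finrank F L (IntermediateField.adjoin L {x})
  refine ⟨(IntermediateField.adjoin L {x}).restrictScalars F, ?_, ?_, h2, ?_⟩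
  · intro y hy
    exact (IntermediateField.adjoin L {x}).algebraMap_mem ⟨y, hy⟩
  · exact IntermediateField.mem_adjoin_simple_self L x
  · change Module.finrank F (IntermediateField.adjoin L {x}) ≤ _
    rw [← h3]
    exact Nat.mul_le_mul_left _ hfin

/-- adjunction of finitely many roots -/
theorem adj_fin {F E : Type} [Field F] [Field E] [Algebra F E] (K : IntermediateField F E)
    (hK : FiniteDimensional F K) (n m : ℕ) (hn : Module.finrank F K ≤ n) (S : Finset E)
    (hS : ∀ x ∈ S, ∃ p : E[X], p ≠ 0 ∧ p.natDegree ≤ m ∧ (∀ i, p.coeff i ∈ K) ∧ p.eval x = 0) :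
    ∃ L : IntermediateField F E, K ≤ L ∧ (∀ x ∈ S, x ∈ L) ∧ FiniteDimensional F L ∧
      Module.finrank F L ≤ n * m ^ S.card := by
  classical
  induction S using Finset.induction_on with
  | empty =>
    refine ⟨K, le_rfl, fun x hx => absurd hx (Finset.notMem_empty x), hK, ?_⟩
    rw [Finset.card_empty, pow_zero, mul_one]
    exact hn
  | insert a S ha ih =>
    obtain ⟨L, hKL, hSL, hLf, hLn⟩ := ih fun x hx => hS x (Finset.mem_insert_of_mem hx)
    obtain ⟨p, hp, hpm, hpc, hpa⟩ := hS a (Finset.mem_insert_self a S)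
    obtain ⟨L', hLL', haL', hf', hn'⟩ := adj_one L hLf m a p hp hpm (fun i => hKL (hpc i)) hpa
    refine ⟨L', hKL.trans hLL', ?_, hf', ?_⟩
    · intro x hx
      rcases Finset.mem_insert.1 hx with rfl | hx
      · exact haL'
      · exact hLL' (hSL x hx)
    · rw [Finset.card_insert_of_notMem ha, pow_succ, ← mul_assoc]
      exact hn'.trans (Nat.mul_le_mul_right _ hLn)

theorem t_FLD : FLD := by
  intro F E _ _ _ n d hd K hK hn f hf hfd hf' hfK
  classical
  -- the coefficients
  obtain ⟨L1, hK1, hS1, hf1, hn1⟩ := adj_fin K hK n d hn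
    ((Finset.range d).image fun i => f.coeff i) (by
      intro x hx
      obtain ⟨i, _, rfl⟩ := Finset.mem_image.1 hx
      refine ⟨X ^ (d - 1) - C (f.coeff i ^ (d - 1)), X_pow_sub_C_ne_zero (by omega) _, ?_, ?_, ?_⟩
      · rw [natDegree_X_pow_sub_C]
        omega
      · intro k
        rw [coeff_sub, coeff_X_pow, coeff_C]
        refine K.sub_mem ?_ ?_
        · split_ifs
          · exact K.one_mem
          · exact K.zero_mem
        · split_ifs
          · exact hfK i
          · exact K.zero_mem
      · rw [eval_sub, eval_pow, eval_X, eval_C, sub_self])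
  have hc1 : ∀ i, f.coeff i ∈ L1 := by
    intro i
    rcases lt_trichotomy i d with hi | hi | hi
    · exact hS1 _ (Finset.mem_image.2 ⟨i, Finset.mem_range.2 hi, rfl⟩)
    · rw [hi, ← hfd, hf.coeff_natDegree]
      exact L1.one_mem
    · rw [coeff_eq_zero_of_natDegree_lt (by rw [hfd]; exact hi)]
      exact L1.zero_mem
  have hcard1 : ((Finset.range d).image fun i => f.coeff i).card ≤ d :=
    Finset.card_image_le.trans (Finset.card_range d).le
  -- the critical points
  have hdeg : (derivative f).natDegree ≤ d := (natDegree_derivative_le f).trans (by omega)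
  obtain ⟨L, h1L, hSL, hfL, hnL⟩ := adj_fin L1 hf1 (n * d ^ d) d
    (hn1.trans (Nat.mul_le_mul_left _ (Nat.pow_le_pow_right (by omega) hcard1)))
    (derivative f).roots.toFinset (by
      intro x hx
      refine ⟨derivative f, hf', hdeg, ?_, ?_⟩
      · intro i
        rw [coeff_derivative]
        refine L1.mul_mem (hc1 _) ?_
        exact L1.add_mem (natCast_mem L1 i) L1.one_mem
      · exact (mem_roots hf').1 (Multiset.mem_toFinset.1 hx))
  have hcard2 : (derivative f).roots.toFinset.card ≤ d :=
    (Multiset.toFinset_card_le _).trans ((card_roots' _).trans hdeg)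
  refine ⟨L, hK1.trans h1L, hfL, ?_, fun i => h1L (hc1 i), ?_⟩
  · rw [← mul_assoc]
    exact hnL.trans (Nat.mul_le_mul_left _ (Nat.pow_le_pow_right (by omega) hcard2))
  · intro c hc
    exact hSL c (Multiset.mem_toFinset.2 ((mem_roots hf').2 hc))

end Pool.Agent.Y314.TP
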